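import Pool.Agent.Helper67.Chb.Base

/-!
Chamberland's real-analytic interpolation `f` of the `3x+1` map and the set `E` of the points
`x ≥ μ₃` whose orbits never enter `[μ₁, μ₃]`.

On the explicit intervals `J n = [n, n + 5/(6(2n+1))]` the question is exactly the `3x+1`
conjecture: `J n` is contained in `E` or disjoint from `E`, according to whether the `T`-orbit of
`n` avoids or reaches `1`.  Hence if `E` is a null set, or only has empty interior, then the
`3x+1` conjecture holds: no further cycle and no divergent trajectory.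
-/

set_option autoImplicit false

namespace Pool.Agent.Results.MP_2dc536_an.EmptyInterior

open MeasureTheory Set

/-- The `3x+1` map on the nonnegative integers. -/
def T (n : ℕ) : ℕ := if n % 2 = 0 then n / 2 else (3 * n + 1) / 2

/-- The set `E` of the question (for `a = μ₁`, `c = μ₃`). -/
def Esc (f : ℝ → ℝ) (a c : ℝ) : Set ℝ := {x : ℝ | c ≤ x ∧ ∀ n : ℕ, f^[n] x ∉ Set.Icc a c}

/-- The interval `[n, n + 5/(6(2n+1))]`. -/
def J (n : ℕ) : Set ℝ := Set.Icc (n : ℝ) (n + 5 / (6 * (2 * (n : ℝ) + 1)))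

/-- **Main theorem.** Let `f` be Chamberland's interpolation of the `3x+1` map, `a = μ₁ < b = μ₂ < c = μ₃`
its first three positive fixed points, and `E = Esc f a c` the set of the question.

(1) For `n ≥ 1` the interval `J n = [n, n + 5/(6(2n+1))]` is disjoint from `E` if the `3x+1` orbit of `n`
reaches `1`, and contained in `E` otherwise.
(2) The `3x+1` conjecture is equivalent to: the part of `E` in the union of the `J n` is a null set.
(3) If `E` has empty interior (in particular if it is a null set) then the `3x+1` conjecture holds. -/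
theorem result (f : ℝ → ℝ) (hf : ∀ x : ℝ, f x = x + 1/4 - (x/2 + 1/4) * Real.cos (Real.pi * x))
    (a b c : ℝ) (ha : 0 < a) (hab : a < b) (hbc : b < c) (hfa : f a = a) (hfb : f b = b)
    (hfc : f c = c) (hall : ∀ x : ℝ, 0 < x → x ≤ c → f x = x → x = a ∨ x = b ∨ x = c) :
    (∀ n : ℕ, 1 ≤ n → ((∃ k : ℕ, T^[k] n = 1) → Disjoint (J n) (Esc f a c)) ∧
      ((∀ k : ℕ, T^[k] n ≠ 1) → J n ⊆ Esc f a c)) ∧
    ((∀ n : ℕ, 1 ≤ n → ∃ k : ℕ, T^[k] n = 1) ↔
      volume (Esc f a c ∩ ⋃ n : {n : ℕ // 1 ≤ n}, J n) = 0) ∧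
    (interior (Esc f a c) = ∅ → ∀ n : ℕ, 1 ≤ n → ∃ k : ℕ, T^[k] n = 1) := by
  obtain rfl : f = Pool.Agent.H934R2.Ch.f := by
    funext x
    rw [hf]
    unfold Pool.Agent.H934R2.Ch.f
    ring
  have hg : Pool.Agent.Helper67.Chb.Good a c := Pool.Agent.Helper67.Chb.good_of ha hab hbc
    ((Pool.Agent.Helper67.Chb.f_fix_iff a).1 hfa) ((Pool.Agent.Helper67.Chb.f_fix_iff b).1 hfb)
    ((Pool.Agent.Helper67.Chb.f_fix_iff c).1 hfc)
    (fun x h1 h2 h3 => hall x h1 h2 ((Pool.Agent.Helper67.Chb.f_fix_iff x).2 h3))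
  have reach : ∀ n : ℕ, 1 ≤ n → (∃ k : ℕ, T^[k] n = 1) →
      Disjoint (J n) (Esc Pool.Agent.H934R2.Ch.f a c) := fun n hn hk =>
    Pool.Agent.Helper67.Chb.J_reach hg hn hk
  have avoid : ∀ n : ℕ, 1 ≤ n → (∀ k : ℕ, T^[k] n ≠ 1) →
      J n ⊆ Esc Pool.Agent.H934R2.Ch.f a c := fun n hn hk =>
    Pool.Agent.Helper67.Chb.J_avoid hg hn hk
  refine ⟨fun n hn => ⟨reach n hn, avoid n hn⟩, ?_, ?_⟩
  · constructor
    · intro H
      have : Esc Pool.Agent.H934R2.Ch.f a c ∩ ⋃ n : {n : ℕ // 1 ≤ n}, J n = ∅ := by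
        rw [Set.eq_empty_iff_forall_notMem]
        rintro x ⟨h1, h2⟩
        obtain ⟨n, hn⟩ := Set.mem_iUnion.1 h2
        exact Set.disjoint_left.1 (reach n n.2 (H n n.2)) hn h1
      rw [this, measure_empty]
    · intro H n hn
      by_contra hcon
      push Not at hcon
      have h1 := avoid n hn hcon
      have h2 : J n ⊆ Esc Pool.Agent.H934R2.Ch.f a c ∩ ⋃ n : {n : ℕ // 1 ≤ n}, J n := by
        intro x hx
        exact ⟨h1 hx, Set.mem_iUnion.2 ⟨⟨n, hn⟩, hx⟩⟩
      have h3 := measure_mono_null h2 H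
      exact absurd h3 (Pool.Agent.Helper67.Chb.J_vol n).ne'
  · intro H n hn
    by_contra hcon
    push Not at hcon
    have h1 := avoid n hn hcon
    have h2 : Set.Ioo (n : ℝ) (n + 5 / (6 * (2 * (n : ℝ) + 1))) ⊆
        interior (Esc Pool.Agent.H934R2.Ch.f a c) :=
      interior_maximal (Set.Ioo_subset_Icc_self.trans h1) isOpen_Ioo
    rw [H] at h2
    have h3 : (0 : ℝ) < 5 / (6 * (2 * (n : ℝ) + 1)) := by positivity
    have h4 : (n : ℝ) + 5 / (6 * (2 * (n : ℝ) + 1)) / 2 ∈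
        Set.Ioo (n : ℝ) (n + 5 / (6 * (2 * (n : ℝ) + 1))) := by
      constructor <;> linarith
    exact (h2 h4).elim

end Pool.Agent.Results.MP_2dc536_an.EmptyInterior
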