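import Pool.Agent.Helper67.Chb.Base

/-!
Chamberland's real-analytic interpolation `f` of the `3x+1` map and the set `E` of the points
`x ≥ μ₃` whose orbits never enter `[μ₁, μ₃]`.

The Lebesgue measure of `E ∩ [m, m+1)` converges, with an explicit power rate, to a number `D < 1`,
and `E` is a null set if and only if `D = 0`, if and only if the proportion of `E` in unit intervals
is arbitrarily small arbitrarily far out.
-/

set_option autoImplicit false

namespace Pool.Agent.Results.MP_2dc536_an.LimitingProportion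

open Filter Topology MeasureTheory Set

/-- The set `E` of the question (for `a = μ₁`, `c = μ₃`). -/
def Esc (f : ℝ → ℝ) (a c : ℝ) : Set ℝ := {x : ℝ | c ≤ x ∧ ∀ n : ℕ, f^[n] x ∉ Set.Icc a c}

/-- The Lebesgue measure of `A ∩ [m, m+1)`. -/
noncomputable def share (A : Set ℝ) (m : ℕ) : ℝ := (volume (A ∩ Set.Ico (m : ℝ) (m + 1))).toReal

/-- **Main theorem.** Let `f` be Chamberland's interpolation of the `3x+1` map, `a = μ₁ < b = μ₂ < c = μ₃`
its first three positive fixed points, and `E = Esc f a c` the set of the question.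

The measure of `E ∩ [m, m+1)` converges with a power rate to a number `D` with `0 ≤ D < 1`; `E` is a
null set iff `D = 0`, iff the measure of `E ∩ [m, m+1)` is arbitrarily small for arbitrarily large `m`. -/
theorem result (f : ℝ → ℝ) (hf : ∀ x : ℝ, f x = x + 1/4 - (x/2 + 1/4) * Real.cos (Real.pi * x))
    (a b c : ℝ) (ha : 0 < a) (hab : a < b) (hbc : b < c) (hfa : f a = a) (hfb : f b = b)
    (hfc : f c = c) (hall : ∀ x : ℝ, 0 < x → x ≤ c → f x = x → x = a ∨ x = b ∨ x = c) :
    ∃ D : ℝ, 0 ≤ D ∧ D < 1 ∧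
      (∀ m : ℕ, 1 ≤ m → |share (Esc f a c) m - D| ≤ 2 * 10 ^ 7 / (m : ℝ) ^ (1 / 2000 : ℝ)) ∧
      (volume (Esc f a c) = 0 ↔ D = 0) ∧
      (volume (Esc f a c) = 0 ↔
        ∀ ε : ℝ, 0 < ε → ∀ M : ℕ, ∃ m : ℕ, M ≤ m ∧ share (Esc f a c) m < ε) := by
  obtain rfl : f = Pool.Agent.H934R2.Ch.f := by
    funext x
    rw [hf]
    unfold Pool.Agent.H934R2.Ch.f
    ring
  have hg : Pool.Agent.Helper67.Chb.Good a c := Pool.Agent.Helper67.Chb.good_of ha hab hbc
    ((Pool.Agent.Helper67.Chb.f_fix_iff a).1 hfa) ((Pool.Agent.Helper67.Chb.f_fix_iff b).1 hfb)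
    ((Pool.Agent.Helper67.Chb.f_fix_iff c).1 hfc)
    (fun x h1 h2 h3 => hall x h1 h2 ((Pool.Agent.Helper67.Chb.f_fix_iff x).2 h3))
  have hinv := Pool.Agent.Helper67.Chb.Bset_inv hg
  obtain ⟨D, hD, hrate⟩ := Pool.Agent.TH237.CH.rate hinv
  have hIoi : Pool.Agent.Helper67.Chb.Bset a c ∩ Set.Ioi 1 = Esc Pool.Agent.H934R2.Ch.f a c :=
    Pool.Agent.Helper67.Chb.Bset_Ioi hg
  have hsh : ∀ {m : ℕ}, 1 ≤ m → share (Esc Pool.Agent.H934R2.Ch.f a c) m =
      Pool.Agent.W40.Ch.bb (Pool.Agent.Helper67.Chb.Bset a c) m := fun hm =>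
    Pool.Agent.Helper67.Chb.share_eq hg hm
  have hD0 : 0 ≤ D := ge_of_tendsto' hD (Pool.Agent.W40.Ch.bb_nonneg _)
  have hD1 : D ≤ 1 := le_of_tendsto' hD (Pool.Agent.W40.Ch.bb_le_one _)
  have hnull : volume (Esc Pool.Agent.H934R2.Ch.f a c) = 0 ↔ D = 0 := by
    constructor
    · intro h0
      exact Pool.Agent.W40.Ch.dens_zero (by rw [hIoi]; exact h0) hD
    · intro h0
      by_contra hne
      have := Pool.Agent.W40.Ch.dens_pos hinv (by rw [hIoi]; exact hne) hD
      linarith
  have hD1' : D < 1 := by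
    rcases lt_or_eq_of_le hD1 with H | H
    · exact H
    · exfalso
      rw [H] at hD
      have h1 := Pool.Agent.W40.Ch.full_of_one hinv hD
      have h2 : Set.Ioo (1 : ℝ) 2 ⊆ Set.Ioi 1 \ Pool.Agent.Helper67.Chb.Bset a c := by
        rintro x ⟨h3, h4⟩
        refine ⟨h3, fun h5 => ?_⟩
        apply h5.2 0
        have h6 := hg.a_lt
        have h7 := hg.c_gt
        exact ⟨by show a ≤ x; linarith, by show x ≤ c; linarith⟩
      have h3 := measure_mono_null h2 h1
      rw [Real.volume_Ioo] at h3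
      norm_num at h3
  have hshare : Tendsto (share (Esc Pool.Agent.H934R2.Ch.f a c)) atTop (𝓝 D) := by
    apply hD.congr'
    filter_upwards [eventually_ge_atTop 1] with m hm
    exact (hsh hm).symm
  refine ⟨D, hD0, hD1', ?_, hnull, ?_⟩
  · intro m hm
    rw [hsh hm]
    have h1 := hrate m hm
    rw [Real.rpow_neg (Nat.cast_nonneg m), ← div_eq_mul_inv] at h1
    exact h1
  · rw [hnull]
    constructor
    · rintro h0 ε hε M
      rw [h0] at hshare
      have h1 := (hshare.eventually (gt_mem_nhds hε)).and (eventually_ge_atTop M)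
      obtain ⟨m, hm1, hm2⟩ := h1.exists
      exact ⟨m, hm2, hm1⟩
    · intro H
      by_contra hne
      have hpos : 0 < D := lt_of_le_of_ne hD0 (Ne.symm hne)
      have h1 := (hshare.eventually (lt_mem_nhds (show D / 2 < D by linarith)))
      obtain ⟨M, hM⟩ := eventually_atTop.1 h1
      obtain ⟨m, hm1, hm2⟩ := H (D / 2) (by linarith) M
      have := hM m hm1
      linarith

end Pool.Agent.Results.MP_2dc536_an.LimitingProportion
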